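import Pool.Agent.H663R2.AbSqMain

/-!
# Words with more than `C n ^ (3 / 2)` inequivalent abelian squares

The exponent `3 / 2` of the conjecture of Kociumaka, Radoszewski, Rytter and Waleń is refuted: the
number of inequivalent abelian squares in a word of length `n` can exceed `C n ^ β` for every
`β < log 27 / log (27 / 4) = 1.7259...`.

Idea.  For `x, z` disjoint `m`-subsets of a `3m`-set the points `2x`, `x + z`, `2z` (incidence
vectors) form a three-term progression; there are `(3m)! / (m!)^3` differences `z - x` but only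
about `(27 / 4) ^ m` points.  A random affine map modulo `p`, `p` proportional to the number of
points, puts the points in different columns `0, ..., p - 1` and keeps a positive proportion of the
progressions.  A word over an alphabet with `3m + 1` letters is built whose prefix Parikh vectors
follow the points of the columns with a delay of `12m` letters per column.
-/

namespace Pool.Agent.Results.MP_72cd34_co.ManyAbelianSquares

open Pool.Agent.H663R2.AbSq Filter Topology

lemma choose_le (m : ℕ) : ((3 * m).choose m : ℝ) ≤ (27 / 4 : ℝ) ^ m := by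
  have h1 := add_pow (1 / 3 : ℝ) (2 / 3) (3 * m)
  have h2 : (1 / 3 : ℝ) ^ m * (2 / 3) ^ (3 * m - m) * ((3 * m).choose m : ℝ) ≤
      ∑ j ∈ Finset.range (3 * m + 1), (1 / 3 : ℝ) ^ j * (2 / 3) ^ (3 * m - j)
        * ((3 * m).choose j : ℝ) := by
    apply Finset.single_le_sum (f := fun j => (1 / 3 : ℝ) ^ j * (2 / 3) ^ (3 * m - j)
        * ((3 * m).choose j : ℝ)) (fun j _ => by positivity)
    rw [Finset.mem_range]
    omega
  rw [← h1] at h2
  norm_num at h2
  have h3 : 3 * m - m = 2 * m := by omega
  rw [h3] at h2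
  have h4 : (1 / 3 : ℝ) ^ m * (2 / 3) ^ (2 * m) = (4 / 27 : ℝ) ^ m := by
    rw [pow_mul, ← mul_pow]
    norm_num
  rw [h4] at h2
  have h5 : (27 / 4 : ℝ) ^ m * (4 / 27 : ℝ) ^ m = 1 := by
    rw [← mul_pow]
    norm_num
  calc ((3 * m).choose m : ℝ) = (27 / 4 : ℝ) ^ m * ((4 / 27 : ℝ) ^ m * ((3 * m).choose m : ℝ)) := by
        rw [← mul_assoc, h5, one_mul]
    _ ≤ (27 / 4 : ℝ) ^ m * 1 := by gcongr
    _ = (27 / 4 : ℝ) ^ m := mul_one _

lemma four_pow_le (m : ℕ) (hm : 1 ≤ m) : (4 : ℝ) ^ m ≤ 2 * m * ((2 * m).choose m : ℝ) := by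
  have := Nat.four_pow_le_two_mul_self_mul_centralBinom m hm
  rw [Nat.centralBinom_eq_two_mul_choose] at this
  exact_mod_cast this

/-- **Main theorem.** For every `β < log 27 / log (27 / 4)` and every `C` there is a word `w` over a
finite alphabet which contains more than `C |w| ^ β` pairwise inequivalent abelian squares. In
particular there is no absolute constant `C` such that every word of length `n` contains at most
`C n ^ (3 / 2)` pairwise inequivalent abelian squares. -/
theorem result :
    (∀ β : ℝ, β < Real.log 27 / Real.log (27 / 4) → ∀ C : ℝ,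
      ∃ (α : Type) (_ : Fintype α) (_ : DecidableEq α) (w : List α), w ≠ [] ∧
        C * (w.length : ℝ) ^ β < numSquares w) ∧
    (3 / 2 : ℝ) < Real.log 27 / Real.log (27 / 4) ∧
    ¬ ∃ C : ℝ, ∀ (α : Type) (_ : Fintype α) (_ : DecidableEq α) (w : List α),
        (numSquares w : ℝ) ≤ C * (w.length : ℝ) ^ (3 / 2 : ℝ) := by
  have hlog : 0 < Real.log (27 / 4) := Real.log_pos (by norm_num)
  have h32 : (3 / 2 : ℝ) < Real.log 27 / Real.log (27 / 4) := by
    rw [lt_div_iff₀ hlog]
    have h1 : 3 * Real.log (27 / 4) < 2 * Real.log 27 := by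
      have h2 : Real.log ((27 / 4 : ℝ) ^ 3) < Real.log ((27 : ℝ) ^ 2) := by
        apply Real.log_lt_log (by norm_num)
        norm_num
      rw [Real.log_pow, Real.log_pow] at h2
      push_cast at h2
      exact h2
    linarith
  have hmain : ∀ β : ℝ, β < Real.log 27 / Real.log (27 / 4) → ∀ C : ℝ,
      ∃ (α : Type) (_ : Fintype α) (_ : DecidableEq α) (w : List α), w ≠ [] ∧
        C * (w.length : ℝ) ^ β < numSquares w := by
    intro β hβ C
    set b := max β 1 with hb
    have hb1 : 1 ≤ b := le_max_right _ _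
    have hblt : b < Real.log 27 / Real.log (27 / 4) := by
      apply max_lt hβ
      linarith
    have hb2 : b ≤ 2 := by
      have h1 : Real.log 27 / Real.log (27 / 4) < 2 := by
        rw [div_lt_iff₀ hlog]
        have h2 : Real.log 27 < Real.log ((27 / 4 : ℝ) ^ 2) := by
          apply Real.log_lt_log (by norm_num)
          norm_num
        rw [Real.log_pow] at h2
        push_cast at h2
        exact h2
      linarith
    set K := max C 1 with hK
    have hK1 : 1 ≤ K := le_max_right _ _
    -- the ratio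
    set q : ℝ := (27 / 4 : ℝ) ^ (b - 1) with hq
    have hq0 : 0 < q := Real.rpow_pos_of_pos (by norm_num) _
    have hq4 : q < 4 := by
      rw [hq, ← Real.log_lt_log_iff (Real.rpow_pos_of_pos (by norm_num) _) (by norm_num),
        Real.log_rpow (by norm_num)]
      rw [lt_div_iff₀ hlog] at hblt
      have h1 : Real.log 27 = Real.log (27 / 4) + Real.log 4 := by
        rw [← Real.log_mul (by norm_num) (by norm_num)]
        norm_num
      linarith
    have htend := tendsto_pow_const_mul_const_pow_of_abs_lt_one 3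
      (r := q / 4) (by rw [abs_of_pos (by positivity)]; rw [div_lt_one (by norm_num)]; exact hq4)
    have hev : ∀ᶠ m : ℕ in atTop, (m : ℝ) ^ 3 * (q / 4) ^ m < 1 / (36 * K * 1332 ^ 2) := by
      apply htend.eventually (gt_mem_nhds _)
      positivity
    obtain ⟨m, hm, hm1⟩ := (hev.and (eventually_ge_atTop 1)).exists
    obtain ⟨w, hwl, hwn⟩ := exists_word m hm1
    set c := (3 * m).choose m with hc
    set c2 := (2 * m).choose m with hc2
    have hcpos : 1 ≤ c := Nat.choose_pos (by omega)
    have hcpos' : (1 : ℝ) ≤ (c : ℝ) := by exact_mod_cast hcpos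
    have hmpos : (1 : ℝ) ≤ (m : ℝ) := by exact_mod_cast hm1
    have hlen1 : 1 ≤ w.length := by
      rw [hwl]
      have : 0 < 12 * m * (108 * c + 3) := by positivity
      omega
    refine ⟨_, inferInstance, inferInstance, w, ?_, ?_⟩
    · rintro rfl
      simp at hlen1
    · have hlen : (w.length : ℝ) ≤ 1332 * m * c := by
        rw [hwl]
        push_cast
        nlinarith
      have hl1 : (1 : ℝ) ≤ (w.length : ℝ) := by exact_mod_cast hlen1
      have h1 : (w.length : ℝ) ^ β ≤ (w.length : ℝ) ^ b :=
        Real.rpow_le_rpow_of_exponent_le hl1 (le_max_left _ _)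
      have h2 : (w.length : ℝ) ^ b ≤ (1332 * m * c : ℝ) ^ b :=
        Real.rpow_le_rpow (by positivity) hlen (by linarith)
      have h3 : (1332 * m * c : ℝ) ^ b = (1332 * m : ℝ) ^ b * ((c : ℝ) * (c : ℝ) ^ (b - 1)) := by
        rw [Real.mul_rpow (by positivity) (by positivity)]
        congr 1
        have : (c : ℝ) ^ b = (c : ℝ) ^ (1 + (b - 1)) := by congr 1; ring
        rw [this, Real.rpow_add (by linarith), Real.rpow_one]
      have h4 : (1332 * m : ℝ) ^ b ≤ (1332 * m : ℝ) ^ (2 : ℝ) := by
        apply Real.rpow_le_rpow_of_exponent_le _ hb2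
        nlinarith
      have h5 : (1332 * m : ℝ) ^ (2 : ℝ) = 1332 ^ 2 * (m : ℝ) ^ 2 := by
        rw [show (2 : ℝ) = ((2 : ℕ) : ℝ) by norm_num, Real.rpow_natCast]
        ring
      have h6 : (c : ℝ) ^ (b - 1) ≤ q ^ m := by
        calc (c : ℝ) ^ (b - 1) ≤ ((27 / 4 : ℝ) ^ m) ^ (b - 1) :=
              Real.rpow_le_rpow (by positivity) (choose_le m) (by linarith)
          _ = q ^ m := by
              rw [hq, ← Real.rpow_natCast, ← Real.rpow_natCast, ← Real.rpow_mul (by norm_num),
                ← Real.rpow_mul (by norm_num), mul_comm]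
      have h7 := four_pow_le m hm1
      have h8 : (c : ℝ) * c2 ≤ 18 * numSquares w := by exact_mod_cast hwn
      -- assemble
      have h9 : (m : ℝ) ^ 3 * q ^ m * (36 * K * 1332 ^ 2) < 4 ^ m := by
        have h10 : (m : ℝ) ^ 3 * (q / 4) ^ m * (36 * K * 1332 ^ 2) < 1 := by
          rwa [lt_div_iff₀ (by positivity)] at hm
        have h11 : (m : ℝ) ^ 3 * q ^ m * (36 * K * 1332 ^ 2)
            = ((m : ℝ) ^ 3 * (q / 4) ^ m * (36 * K * 1332 ^ 2)) * 4 ^ m := by
          rw [div_pow]
          field_simp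
        rw [h11]
        calc ((m : ℝ) ^ 3 * (q / 4) ^ m * (36 * K * 1332 ^ 2)) * 4 ^ m < 1 * 4 ^ m := by
              apply mul_lt_mul_of_pos_right h10 (by positivity)
          _ = 4 ^ m := one_mul _
      have h12 : K * (1332 ^ 2 * (m : ℝ) ^ 2 * ((c : ℝ) * q ^ m)) * 18 < (c : ℝ) * c2 := by
        have h13 : (m : ℝ) * (K * (1332 ^ 2 * (m : ℝ) ^ 2 * ((c : ℝ) * q ^ m)) * 18) * 2
            < (m : ℝ) * ((c : ℝ) * c2) * 2 := by
          calc (m : ℝ) * (K * (1332 ^ 2 * (m : ℝ) ^ 2 * ((c : ℝ) * q ^ m)) * 18) * 2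
              = (c : ℝ) * ((m : ℝ) ^ 3 * q ^ m * (36 * K * 1332 ^ 2)) := by ring
            _ < (c : ℝ) * 4 ^ m := by
                apply mul_lt_mul_of_pos_left h9 (by linarith)
            _ ≤ (c : ℝ) * (2 * m * c2) := by
                apply mul_le_mul_of_nonneg_left h7 (by linarith)
            _ = (m : ℝ) * ((c : ℝ) * c2) * 2 := by ring
        have h14 : (0 : ℝ) < m * 2 := by linarith
        nlinarith
      calc C * (w.length : ℝ) ^ β ≤ K * (w.length : ℝ) ^ β := by
            apply mul_le_mul_of_nonneg_right (le_max_left _ _) (by positivity)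
        _ ≤ K * (1332 ^ 2 * (m : ℝ) ^ 2 * ((c : ℝ) * q ^ m)) := by
            apply mul_le_mul_of_nonneg_left _ (by linarith)
            calc (w.length : ℝ) ^ β ≤ (1332 * m : ℝ) ^ b * ((c : ℝ) * (c : ℝ) ^ (b - 1)) := by
                  rw [← h3]; exact h1.trans h2
              _ ≤ (1332 ^ 2 * (m : ℝ) ^ 2) * ((c : ℝ) * q ^ m) := by
                  rw [← h5]
                  gcongr
        _ < numSquares w := by
            linarith
  refine ⟨hmain, h32, ?_⟩
  rintro ⟨C, hC⟩
  obtain ⟨α, i1, i2, w, _, hw⟩ := hmain (3 / 2) h32 C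
  exact absurd (hC α i1 i2 w) (not_le.mpr hw)

end Pool.Agent.Results.MP_72cd34_co.ManyAbelianSquares
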